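import Pool.Agent.Q273.QP.Stm2
import Pool.Agent.Q273.QP.T1

/-!
Project QP (helper273), job T2FIN (helper150): two rational points.
-/

set_option autoImplicit false

namespace Pool.Agent.Q150.QP

open Q273.QP Finset MeasureTheory

/-- the polar form -/
def Mv (u v u' v' : ℤ) (x : ℤ × ℤ × ℤ) : ℤ :=
  2 * x.1 * (u * u') + x.2.1 * (u * v' + u' * v) + 2 * x.2.2 * (v * v')

lemma disc_id (u v u' v' : ℤ) (x : ℤ × ℤ × ℤ) :
    Mv u v u' v' x ^ 2 - 4 * Fv u v x * Fv u' v' x =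
      (u * v' - u' * v) ^ 2 * dsc x.1 x.2.1 x.2.2 := by
  unfold Mv Fv dsc
  ring

lemma inj3 (u v u' v' : ℤ) (h : u * v' - u' * v ≠ 0) (x y : ℤ × ℤ × ℤ)
    (h1 : Fv u v x = Fv u v y) (h2 : Fv u' v' x = Fv u' v' y)
    (h3 : Mv u v u' v' x = Mv u v u' v' y) : x = y := by
  have hd : (u * v' - u' * v) ^ 2 ≠ 0 := pow_ne_zero _ h
  have ea : ∀ z : ℤ × ℤ × ℤ, (u * v' - u' * v) ^ 2 * z.1 =
      v' ^ 2 * Fv u v z - v * v' * Mv u v u' v' z + v ^ 2 * Fv u' v' z := by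
    intro z
    unfold Mv Fv
    ring
  have ec : ∀ z : ℤ × ℤ × ℤ, (u * v' - u' * v) ^ 2 * z.2.2 =
      u' ^ 2 * Fv u v z - u * u' * Mv u v u' v' z + u ^ 2 * Fv u' v' z := by
    intro z
    unfold Mv Fv
    ring
  have eb : ∀ z : ℤ × ℤ × ℤ, (u * v' - u' * v) ^ 2 * z.2.1 =
      -2 * u' * v' * Fv u v z + (u * v' + u' * v) * Mv u v u' v' z - 2 * u * v * Fv u' v' z := by
    intro z
    unfold Mv Fv
    ring
  refine Prod.ext ?_ (Prod.ext ?_ ?_)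
  · apply mul_left_cancel₀ hd
    rw [ea x, ea y, h1, h2, h3]
  · apply mul_left_cancel₀ hd
    rw [eb x, eb y, h1, h2, h3]
  · apply mul_left_cancel₀ hd
    rw [ec x, ec y, h1, h2, h3]

/-- the constant of the box -/
def c0 (u v u' v' : ℤ) : ℕ := 6 * (u.natAbs + v.natAbs + u'.natAbs + v'.natAbs) ^ 2 + 1

lemma mem_box' {x : ℤ × ℤ × ℤ} {X : ℕ} (h : H3 x ≤ X) :
    |x.1| ≤ (X : ℤ) ∧ |x.2.1| ≤ (X : ℤ) ∧ |x.2.2| ≤ (X : ℤ) := by
  have hb := mem_box.2 (show Hx x ≤ X from h)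
  unfold Q273.QP.box at hb
  rw [mem_product, mem_product, mem_Icc, mem_Icc, mem_Icc] at hb
  obtain ⟨⟨a1, a2⟩, ⟨b1, b2⟩, ⟨c1, c2⟩⟩ := hb
  exact ⟨abs_le.2 ⟨a1, a2⟩, abs_le.2 ⟨b1, b2⟩, abs_le.2 ⟨c1, c2⟩⟩

lemma bnd {X : ℤ} {m : ℤ} (hX : 0 ≤ X) {a b c r s t : ℤ} (ha : |a| ≤ X) (hb : |b| ≤ X)
    (hc : |c| ≤ X) (hr : |r| ≤ 2 * m) (hs : |s| ≤ 2 * m) (ht : |t| ≤ 2 * m) :
    |a * r + b * s + c * t| ≤ 6 * m * X := by
  have h1 : |a * r| ≤ X * (2 * m) := by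
    rw [abs_mul]
    exact mul_le_mul ha hr (abs_nonneg _) hX
  have h2 : |b * s| ≤ X * (2 * m) := by
    rw [abs_mul]
    exact mul_le_mul hb hs (abs_nonneg _) hX
  have h3 : |c * t| ≤ X * (2 * m) := by
    rw [abs_mul]
    exact mul_le_mul hc ht (abs_nonneg _) hX
  calc |a * r + b * s + c * t| ≤ |a * r + b * s| + |c * t| := abs_add_le _ _
    _ ≤ |a * r| + |b * s| + |c * t| := by
        have := abs_add_le (a * r) (b * s)
        linarith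
    _ ≤ 6 * m * X := by linarith

lemma bounds (u v u' v' : ℤ) (x : ℤ × ℤ × ℤ) (X : ℕ) (h : H3 x ≤ X) :
    |Fv u v x| ≤ ((c0 u v u' v' * X : ℕ) : ℤ) ∧ |Fv u' v' x| ≤ ((c0 u v u' v' * X : ℕ) : ℤ) ∧
      |Mv u v u' v' x| ≤ ((c0 u v u' v' * X : ℕ) : ℤ) := by
  obtain ⟨ha, hb, hc⟩ := mem_box' h
  set m0 : ℤ := |u| + |v| + |u'| + |v'| with hm0
  have hX : (0 : ℤ) ≤ X := Int.natCast_nonneg _
  have q1 := abs_nonneg u
  have q2 := abs_nonneg v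
  have q3 := abs_nonneg u'
  have q4 := abs_nonneg v'
  have hm : (0 : ℤ) ≤ m0 ^ 2 := sq_nonneg _
  have hc0 : ((c0 u v u' v' * X : ℕ) : ℤ) = (6 * m0 ^ 2 + 1) * X := by
    unfold c0
    push_cast
    rw [hm0]
  rw [hc0]
  have hbig : 6 * m0 ^ 2 * (X : ℤ) ≤ (6 * m0 ^ 2 + 1) * X := by nlinarith
  have p1 : ∀ s t : ℤ, |s| ≤ m0 → |t| ≤ m0 → |s * t| ≤ m0 ^ 2 := by
    intro s t hs ht
    rw [abs_mul, pow_two]
    exact mul_le_mul hs ht (abs_nonneg _) (by positivity)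
  have hu : |u| ≤ m0 := by rw [hm0]; linarith
  have hv : |v| ≤ m0 := by rw [hm0]; linarith
  have hu' : |u'| ≤ m0 := by rw [hm0]; linarith
  have hv' : |v'| ≤ m0 := by rw [hm0]; linarith
  refine ⟨?_, ?_, ?_⟩
  · refine le_trans (le_of_eq ?_) ((bnd hX (m := m0 ^ 2) ha hb hc (r := u * u) (s := u * v)
      (t := v * v) (by linarith [p1 u u hu hu]) (by linarith [p1 u v hu hv])
      (by linarith [p1 v v hv hv])).trans hbig)
    unfold Fv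
    congr 1
    ring
  · refine le_trans (le_of_eq ?_) ((bnd hX (m := m0 ^ 2) ha hb hc (r := u' * u') (s := u' * v')
      (t := v' * v') (by linarith [p1 u' u' hu' hu']) (by linarith [p1 u' v' hu' hv'])
      (by linarith [p1 v' v' hv' hv'])).trans hbig)
    unfold Fv
    congr 1
    ring
  · refine le_trans (le_of_eq ?_) ((bnd hX (m := m0 ^ 2) ha hb hc (r := 2 * (u * u'))
      (s := u * v' + u' * v) (t := 2 * (v * v')) ?_ ?_ ?_).trans hbig)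
    · unfold Mv
      congr 1
      ring
    · rw [abs_mul, abs_of_pos (by norm_num : (0 : ℤ) < 2)]
      linarith [p1 u u' hu hu']
    · have := abs_add_le (u * v') (u' * v)
      linarith [p1 u v' hu hv', p1 u' v hu' hv]
    · rw [abs_mul, abs_of_pos (by norm_num : (0 : ℤ) < 2)]
      linarith [p1 v v' hv hv']

lemma sqV_mul_le (V : Finset Nat.Primes) (d D : ℤ) (hd : d ≠ 0) (hD : D ≠ 0) :
    sqV V D ≤ sqV V (d * D) := by
  unfold sqV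
  refine Finset.prod_le_prod (fun p _ => Real.sqrt_nonneg _) fun p _ => ?_
  have : Fact p.1.Prime := ⟨p.2⟩
  have hp1 : (1 : ℝ) ≤ (p : ℝ) := by exact_mod_cast p.2.one_le
  apply Real.sqrt_le_sqrt
  apply pow_le_pow_right₀ hp1
  rw [padicValInt.mul hd hD]
  omega

lemma sqV_one_le (p : Nat.Primes) (D : ℤ) (hD : D ≠ 0) : sqV {p} D ≤ |(D : ℝ)| := by
  unfold sqV
  rw [prod_singleton]
  have : Fact p.1.Prime := ⟨p.2⟩
  have hp1 : (1 : ℝ) ≤ (p : ℝ) := by exact_mod_cast p.2.one_le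
  have h1 : (1 : ℝ) ≤ (p : ℝ) ^ padicValInt p D := one_le_pow₀ hp1
  have h2 : (p : ℝ) ^ padicValInt p D ≤ |(D : ℝ)| := by
    have h3 : ((p.1 : ℕ) : ℤ) ^ padicValInt p.1 D ∣ D := padicValInt_dvd D
    have h4 : ((p.1 : ℕ) : ℤ) ^ padicValInt p.1 D ≤ |D| :=
      Int.le_of_dvd (abs_pos.2 hD) ((dvd_abs _ _).2 h3)
    exact_mod_cast h4
  refine le_trans ?_ h2
  rw [Real.sqrt_le_left (by positivity)]
  nlinarith

lemma h_val (p : Nat.Primes) (a b c : ℤ) (η : @PadicInt p.1 ⟨p.2⟩) :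
    ∃ j : ℕ, vP p a b c η = (p : ℝ) ^ (-(j : ℤ)) ∨ vP p a b c η = 0 := by
  have : Fact p.1.Prime := ⟨p.2⟩
  unfold vP
  by_cases h : ((a : ℤ_[p.1]) * η ^ 2 + b * η + c) = 0
  · exact ⟨0, Or.inr (by rw [h, norm_zero])⟩
  · exact ⟨_, Or.inl (PadicInt.norm_eq_zpow_neg_valuation h)⟩

/-- the condition on the polynomials -/
def Q2 (u v u' v' : ℤ) (x : ℤ × ℤ × ℤ) : Prop :=
  Prim x.1 x.2.1 x.2.2 ∧ x.1 ≠ 0 ∧ dsc x.1 x.2.1 x.2.2 ≠ 0 ∧ Fv u v x ≠ 0 ∧ Fv u' v' x ≠ 0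

/-- the weight -/
noncomputable def w2 (u v u' v' : ℤ) (x : ℤ × ℤ × ℤ) : ℝ :=
  1 / ((Rd (Fv u v x).natAbs : ℝ) * Rd (Fv u' v' x).natAbs)

lemma w2_nonneg (u v u' v' : ℤ) (x : ℤ × ℤ × ℤ) : 0 ≤ w2 u v u' v' x := by
  unfold w2
  positivity

/-- the ratio -/
noncomputable def RR (V : Finset Nat.Primes) (m : ℤ) : ℝ := sqV V m / Real.sqrt |(m : ℝ)|

lemma RR_nonneg (V : Finset Nat.Primes) (m : ℤ) : 0 ≤ RR V m :=
  div_nonneg (sqV_pos V m).le (Real.sqrt_nonneg _)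

lemma RR_le (V : Finset Nat.Primes) (d D : ℤ) (hd : d ≠ 0) (hD : D ≠ 0) :
    RR V D ≤ |(d : ℝ)| * RR V (d ^ 2 * D) := by
  unfold RR
  have h1 := sqV_mul_le V (d ^ 2) D (pow_ne_zero _ hd) hD
  have hD' : (0 : ℝ) < |(D : ℝ)| := abs_pos.2 (by exact_mod_cast hD)
  have hd' : (0 : ℝ) < |(d : ℝ)| := abs_pos.2 (by exact_mod_cast hd)
  have h2 : Real.sqrt |((d ^ 2 * D : ℤ) : ℝ)| = |(d : ℝ)| * Real.sqrt |(D : ℝ)| := by
    push_cast
    rw [abs_mul, abs_pow, Real.sqrt_mul (by positivity), Real.sqrt_sq hd'.le]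
  have h3 : 0 < Real.sqrt |(D : ℝ)| := Real.sqrt_pos.2 hD'
  rw [h2]
  have h4 : |(d : ℝ)| * (sqV V (d ^ 2 * D) / (|(d : ℝ)| * Real.sqrt |(D : ℝ)|)) =
      sqV V (d ^ 2 * D) / Real.sqrt |(D : ℝ)| := by
    field_simp
  rw [h4]
  exact div_le_div_of_nonneg_right h1 h3.le

open scoped Classical in
/-- the function of the three values -/
noncomputable def ff (V : Finset Nat.Primes) (y : ℤ × ℤ × ℤ) : ℝ :=
  1 / (Rd y.1.natAbs : ℝ) * (1 / (Rd y.2.1.natAbs : ℝ)) *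
    (if y.2.2 ^ 2 ≠ 4 * y.1 * y.2.1 then RR V (y.2.2 ^ 2 - 4 * y.1 * y.2.1) else 0)

lemma ff_nonneg (V : Finset Nat.Primes) (y : ℤ × ℤ × ℤ) : 0 ≤ ff V y := by
  unfold ff
  apply mul_nonneg (by positivity)
  split_ifs
  · exact RR_nonneg _ _
  · exact le_rfl

/-- the sum over the box -/
lemma sum_box (hrad : S_SUMRAD) (hsumb : S_SUMB) (V : Finset Nat.Primes) (ε : ℝ) (hε : 0 < ε) :
    ∃ C : ℝ, 0 < C ∧ ∀ Y : ℕ, 1 ≤ Y →
      ∑ y ∈ ((Finset.Icc (-(Y : ℤ)) Y).filter (fun a => a ≠ 0)) ×ˢ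
        ((Finset.Icc (-(Y : ℤ)) Y).filter (fun a => a ≠ 0)) ×ˢ Finset.Icc (-(Y : ℤ)) Y, ff V y ≤
        C * (Y : ℝ) ^ ε := by
  classical
  obtain ⟨C1, hC1, hb⟩ := hsumb V (ε / 3) (by positivity)
  obtain ⟨C2, hC2, hr⟩ := hrad (ε / 3) (by positivity)
  refine ⟨(2 * C2) ^ 2 * C1, by positivity, fun Y hY => ?_⟩
  have hY0 : (0 : ℝ) < Y := by exact_mod_cast hY
  set S := (Finset.Icc (-(Y : ℤ)) Y).filter (fun a => a ≠ 0) with hS
  have e1 : ∑ a ∈ S, 1 / (Rd a.natAbs : ℝ) ≤ 2 * (C2 * (Y : ℝ) ^ (ε / 3)) := by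
    refine (sum_sym Y (fun n => 1 / (Rd n : ℝ)) (fun n => by positivity)).trans ?_
    refine mul_le_mul_of_nonneg_left ?_ (by norm_num)
    refine le_trans ?_ (hr Y hY)
    refine Finset.sum_le_sum fun a ha => ?_
    have ha1 : a ≠ 0 := by
      have := (mem_Icc.1 ha).1
      omega
    have h1 : 1 ≤ a.divisors.card := Finset.card_pos.2 ⟨1, Nat.one_mem_divisors.2 ha1⟩
    have h2 : (1 : ℝ) ≤ a.divisors.card := by exact_mod_cast h1
    exact div_le_div_of_nonneg_right h2 (Nat.cast_nonneg _)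
  have e2 : ∀ A ∈ S, ∀ B ∈ S, ∑ M ∈ Finset.Icc (-(Y : ℤ)) Y, ff V (A, B, M) ≤
      1 / (Rd A.natAbs : ℝ) * (1 / (Rd B.natAbs : ℝ)) * (C1 * (Y : ℝ) ^ (ε / 3)) := by
    intro A hA B hB
    have h1 := (mem_Icc.1 (mem_filter.1 hA).1)
    have h2 := (mem_Icc.1 (mem_filter.1 hB).1)
    have hA' : |A| ≤ (Y : ℤ) := abs_le.2 h1
    have hB' : |B| ≤ (Y : ℤ) := abs_le.2 h2
    have h3 := hb Y (4 * A * B) hY (by
      rw [abs_mul, abs_mul, abs_of_pos (by norm_num : (0 : ℤ) < 4)]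
      nlinarith [abs_nonneg A, abs_nonneg B])
    unfold ff
    simp only
    rw [← Finset.mul_sum, ← Finset.sum_filter]
    refine mul_le_mul_of_nonneg_left ?_ (by positivity)
    refine le_trans (le_of_eq ?_) h3
    rfl
  rw [Finset.sum_product]
  simp only [Finset.sum_product]
  calc ∑ A ∈ S, ∑ B ∈ S, ∑ M ∈ Finset.Icc (-(Y : ℤ)) Y, ff V (A, B, M)
      ≤ ∑ A ∈ S, ∑ B ∈ S, 1 / (Rd A.natAbs : ℝ) * (1 / (Rd B.natAbs : ℝ)) *
          (C1 * (Y : ℝ) ^ (ε / 3)) :=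
        Finset.sum_le_sum fun A hA => Finset.sum_le_sum fun B hB => e2 A hA B hB
    _ = (∑ A ∈ S, 1 / (Rd A.natAbs : ℝ)) * (∑ A ∈ S, 1 / (Rd A.natAbs : ℝ)) *
          (C1 * (Y : ℝ) ^ (ε / 3)) := by
        rw [Finset.sum_mul_sum, Finset.sum_mul]
        refine Finset.sum_congr rfl fun A _ => ?_
        rw [Finset.sum_mul]
    _ ≤ (2 * (C2 * (Y : ℝ) ^ (ε / 3))) * (2 * (C2 * (Y : ℝ) ^ (ε / 3))) *
          (C1 * (Y : ℝ) ^ (ε / 3)) := by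
        have h0 : 0 ≤ ∑ A ∈ S, 1 / (Rd A.natAbs : ℝ) := Finset.sum_nonneg fun _ _ => by positivity
        gcongr
    _ = (2 * C2) ^ 2 * C1 * ((Y : ℝ) ^ (ε / 3) * (Y : ℝ) ^ (ε / 3) * (Y : ℝ) ^ (ε / 3)) := by ring
    _ = (2 * C2) ^ 2 * C1 * (Y : ℝ) ^ ε := by
        rw [← Real.rpow_add hY0, ← Real.rpow_add hY0]
        congr 2
        ring

theorem t2_sum (hone : S_ONE) (hmeas : S_MEAS) (hrad : S_SUMRAD) (hsumb : S_SUMB)
    [MeasurableSpace ZHat] [BorelSpace ZHat] (μ : Measure ZHat)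
    [IsFiniteMeasure μ] [μ.IsAddLeftInvariant] (V : Finset Nat.Primes)
    (u v u' v' : ℤ) (h : u * v' - u' * v ≠ 0) (ε : ℝ) (hε : 0 < ε) :
    ∃ C : ℝ, ∀ (n k : ℕ) (j : Nat.Primes → ℕ),
      ∑ i ∈ (hfin (q := Q2 u v u' v') (2 ^ k)).toFinset,
        volume {ξ : ℝ | |ξ| ≤ n ∧ vR i.1.1 i.1.2.1 i.1.2.2 ξ ≤
          w2 u v u' v' i.1 * (2 : ℝ) ^ (-(ε * k)) * ∏ p ∈ V, (p : ℝ) ^ j p} *
          μ {η : ZHat | ∀ p ∈ V, η p ∈ (Set.univ : Set (@PadicInt p.1 ⟨p.2⟩)) ∧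
            vP p i.1.1 i.1.2.1 i.1.2.2 (η p) ≤ (p : ℝ) ^ (-(j p : ℤ))} ≤
        ENNReal.ofReal (C * (2 : ℝ) ^ (-(ε * k / 2))) := by
  classical
  obtain ⟨C, hC, hsum⟩ := sum_box hrad hsumb V (ε / 2) (by positivity)
  set δ : ℤ := u * v' - u' * v with hδ
  set cc : ℕ := c0 u v u' v' with hcc
  have hcc1 : 1 ≤ cc := by
    rw [hcc]
    unfold c0
    omega
  have hpos : ∀ p : Nat.Primes, (0 : ℝ) < (p : ℝ) := fun p => by exact_mod_cast p.2.pos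
  refine ⟨(μ Set.univ).toReal * (8 * 2 ^ V.card * |(δ : ℝ)| * (C * (cc : ℝ) ^ (ε / 2))),
    fun n k j => ?_⟩
  set X : ℕ := 2 ^ k with hX
  have hX1 : 1 ≤ X := Nat.one_le_two_pow
  set PJ : ℝ := ∏ p ∈ V, (p : ℝ) ^ j p with hPJ
  have hPJ0 : 0 < PJ := Finset.prod_pos fun p _ => pow_pos (hpos p) _
  set PI : ℝ := ∏ p ∈ V, (p : ℝ) ^ (-(j p : ℤ)) with hPI
  have hPI0 : 0 < PI := Finset.prod_pos fun p _ => zpow_pos (hpos p) _
  have hPIJ : PJ * PI = 1 := by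
    rw [hPJ, hPI, ← Finset.prod_mul_distrib]
    refine Finset.prod_eq_one fun p _ => ?_
    rw [← zpow_natCast, ← zpow_add₀ (hpos p).ne']
    simp
  set δ₂ : ℝ := (2 : ℝ) ^ (-(ε * k)) with hδ₂
  have hδ0 : 0 < δ₂ := Real.rpow_pos_of_pos (by norm_num) _
  set F := (hfin (q := Q2 u v u' v') X).toFinset with hF
  have hFi : ∀ i ∈ F, H3 i.1 ≤ X := by
    intro i hi
    rw [hF, Set.Finite.mem_toFinset] at hi
    exact hi
  set φ : {x // Q2 u v u' v' x} → ℤ × ℤ × ℤ := fun i =>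
    (Fv u v i.1, Fv u' v' i.1, Mv u v u' v' i.1) with hφ
  have hφinj : Function.Injective φ := by
    intro i i' hii
    rw [hφ] at hii
    simp only [Prod.mk.injEq] at hii
    exact Subtype.ext (inj3 u v u' v' h _ _ hii.1 hii.2.1 hii.2.2)
  set c1 : ℝ := 8 * 2 ^ V.card * |(δ : ℝ)| with hc1
  -- one term
  have e1 : ∀ i ∈ F, volume {ξ : ℝ | |ξ| ≤ n ∧ vR i.1.1 i.1.2.1 i.1.2.2 ξ ≤
          w2 u v u' v' i.1 * δ₂ * PJ} *
          μ {η : ZHat | ∀ p ∈ V, η p ∈ (Set.univ : Set (@PadicInt p.1 ⟨p.2⟩)) ∧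
            vP p i.1.1 i.1.2.1 i.1.2.2 (η p) ≤ (p : ℝ) ^ (-(j p : ℤ))} ≤
        μ Set.univ * ENNReal.ofReal (c1 * δ₂ * ff V (φ i)) := by
    intro i _
    obtain ⟨q1, q2, q3, q4, q5⟩ := i.2
    set D := dsc i.1.1 i.1.2.1 i.1.2.2 with hD
    set K : ℝ := w2 u v u' v' i.1 * δ₂ * PJ with hK
    have hw := w2_nonneg u v u' v' i.1
    have hK0 : 0 ≤ K := by positivity
    have g1 : volume {ξ : ℝ | |ξ| ≤ n ∧ vR i.1.1 i.1.2.1 i.1.2.2 ξ ≤ K} ≤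
        ENNReal.ofReal (8 * K / Real.sqrt |(D : ℝ)|) :=
      (measure_mono fun ξ hξ => hξ.2).trans (hone _ _ _ K q2 q3 hK0)
    have g2 : μ {η : ZHat | ∀ p ∈ V, η p ∈ (Set.univ : Set (@PadicInt p.1 ⟨p.2⟩)) ∧
            vP p i.1.1 i.1.2.1 i.1.2.2 (η p) ≤ (p : ℝ) ^ (-(j p : ℤ))} ≤
        μ Set.univ * ENNReal.ofReal (2 ^ V.card * PI * sqV V D) :=
      (measure_mono fun η hη p hp => (hη p hp).2).trans (hmeas μ V _ _ _ q1 q3 j)
    refine (mul_le_mul' g1 g2).trans ?_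
    rw [mul_left_comm]
    refine mul_le_mul' le_rfl ?_
    rw [← ENNReal.ofReal_mul (by positivity)]
    refine ENNReal.ofReal_le_ofReal ?_
    have hD0 : (0 : ℝ) < Real.sqrt |(D : ℝ)| :=
      Real.sqrt_pos.2 (abs_pos.2 (by exact_mod_cast q3))
    have g3 : ff V (φ i) = w2 u v u' v' i.1 * RR V (δ ^ 2 * D) := by
      have g4 := disc_id u v u' v' i.1
      unfold ff
      rw [hφ]
      simp only
      have g5 : Mv u v u' v' i.1 ^ 2 ≠ 4 * Fv u v i.1 * Fv u' v' i.1 := by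
        intro g6
        have g7 : (u * v' - u' * v) ^ 2 * D = 0 := by
          rw [← g4, g6, sub_self]
        rcases mul_eq_zero.1 g7 with g8 | g8
        · exact h ((pow_eq_zero_iff (by norm_num)).1 g8)
        · exact q3 g8
      rw [if_pos g5, g4]
      unfold w2
      rw [one_div_mul_one_div]
    rw [g3]
    have g4 := RR_le V δ D h q3
    calc 8 * K / Real.sqrt |(D : ℝ)| * (2 ^ V.card * PI * sqV V D)
        = 8 * 2 ^ V.card * δ₂ * w2 u v u' v' i.1 * (PJ * PI) * RR V D := by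
          unfold RR
          rw [hK]
          field_simp
      _ = 8 * 2 ^ V.card * δ₂ * w2 u v u' v' i.1 * RR V D := by rw [hPIJ, mul_one]
      _ ≤ 8 * 2 ^ V.card * δ₂ * w2 u v u' v' i.1 * (|(δ : ℝ)| * RR V (δ ^ 2 * D)) :=
          mul_le_mul_of_nonneg_left g4 (by positivity)
      _ = c1 * δ₂ * (w2 u v u' v' i.1 * RR V (δ ^ 2 * D)) := by
          rw [hc1]
          ring
  refine (Finset.sum_le_sum e1).trans ?_
  rw [← Finset.mul_sum]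
  have hff : ∀ i, 0 ≤ c1 * δ₂ * ff V (φ i) := by
    intro i
    have := ff_nonneg V (φ i)
    positivity
  rw [← ENNReal.ofReal_sum_of_nonneg (fun i _ => hff i), ← Finset.mul_sum]
  -- the sum over the box
  set Y : ℕ := cc * X with hY
  have hY1 : 1 ≤ Y := Nat.one_le_iff_ne_zero.2 (Nat.mul_ne_zero (by omega) (by omega))
  have e2 : ∑ i ∈ F, ff V (φ i) ≤ C * (Y : ℝ) ^ (ε / 2) := by
    rw [← Finset.sum_image (f := fun y => ff V y) hφinj.injOn]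
    refine le_trans ?_ (hsum Y hY1)
    refine Finset.sum_le_sum_of_subset_of_nonneg ?_ (fun y _ _ => ff_nonneg V y)
    intro y hy
    obtain ⟨i, hi, rfl⟩ := Finset.mem_image.1 hy
    obtain ⟨b1, b2, b3⟩ := bounds u v u' v' i.1 X (hFi i hi)
    rw [mem_product, mem_product, mem_filter, mem_filter, mem_Icc, mem_Icc, mem_Icc]
    exact ⟨⟨abs_le.1 b1, i.2.2.2.2.1⟩, ⟨abs_le.1 b2, i.2.2.2.2.2⟩, abs_le.1 b3⟩
  rw [← ENNReal.ofReal_toReal (measure_ne_top μ Set.univ), ← ENNReal.ofReal_mul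
    ENNReal.toReal_nonneg, ENNReal.toReal_ofReal ENNReal.toReal_nonneg]
  refine ENNReal.ofReal_le_ofReal ?_
  rw [mul_assoc (μ Set.univ).toReal]
  refine mul_le_mul_of_nonneg_left ?_ ENNReal.toReal_nonneg
  have e7 : (Y : ℝ) ^ (ε / 2) = (cc : ℝ) ^ (ε / 2) * (2 : ℝ) ^ (ε * k / 2) := by
    rw [hY, hX]
    push_cast
    rw [Real.mul_rpow (by positivity) (by positivity), ← Real.rpow_natCast,
      ← Real.rpow_mul (by norm_num)]
    congr 2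
    ring
  have e8 : δ₂ * (2 : ℝ) ^ (ε * k / 2) = (2 : ℝ) ^ (-(ε * k / 2)) := by
    rw [hδ₂, ← Real.rpow_add (by norm_num)]
    congr 1
    ring
  calc c1 * δ₂ * ∑ i ∈ F, ff V (φ i) ≤ c1 * δ₂ * (C * (Y : ℝ) ^ (ε / 2)) :=
        mul_le_mul_of_nonneg_left e2 (by positivity)
    _ = c1 * (C * (cc : ℝ) ^ (ε / 2)) * (δ₂ * (2 : ℝ) ^ (ε * k / 2)) := by rw [e7]; ring
    _ = _ := by rw [e8]

theorem t2fin (hone : S_ONE) (hmeas : S_MEAS) (hrad : S_SUMRAD) (hsumb : S_SUMB) (hbc : S_BC) :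
    S_T2fin := by
  classical
  intro _ _ μ _ _ V u v u' v' ε h hε
  have hε2 : 0 < ε / 2 := by positivity
  obtain ⟨C, hC⟩ := t2_sum hone hmeas hrad hsumb μ V u v u' v' h (ε / 2) hε2
  have key := hbc μ {x // Q2 u v u' v' x} V (fun i => H3 i.1)
    (fun X => hfin (q := Q2 u v u' v') X) (fun i => w2 u v u' v' i.1)
    (fun i ξ => vR i.1.1 i.1.2.1 i.1.2.2 ξ) (fun i p η => vP p i.1.1 i.1.2.1 i.1.2.2 η)
    (fun _ _ => Set.univ) (ε / 2) hε2 (fun i => w2_nonneg _ _ _ _ _) (fun i ξ => abs_nonneg _)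
    (fun i p η => h_val p _ _ _ η)
    (by
      refine ⟨max 3 (⌈10 * (μ Set.univ).toReal⌉₊), fun i p _ j => ?_⟩
      set m := max 3 (⌈10 * (μ Set.univ).toReal⌉₊) with hm
      obtain ⟨q1, q2, q3, q4, q5⟩ := i.2
      have h1 := hmeas μ {p} i.1.1 i.1.2.1 i.1.2.2 q1 q3 (fun _ => j)
      have h2 : {η : ZHat | vP p i.1.1 i.1.2.1 i.1.2.2 (η p) ≤ (p : ℝ) ^ (-(j : ℤ))} ⊆
          {η : ZHat | ∀ p' ∈ ({p} : Finset Nat.Primes),
            vP p' i.1.1 i.1.2.1 i.1.2.2 (η p') ≤ (p' : ℝ) ^ (-(j : ℤ))} := by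
        intro η hη p' hp'
        rw [Finset.mem_singleton] at hp'
        subst hp'
        exact hη
      refine (measure_mono h2).trans (h1.trans ?_)
      rw [Finset.card_singleton, pow_one, Finset.prod_singleton,
        ← ENNReal.ofReal_toReal (measure_ne_top μ Set.univ), ← ENNReal.ofReal_mul
        ENNReal.toReal_nonneg]
      refine ENNReal.ofReal_le_ofReal ?_
      have hp0 : (0 : ℝ) < (p : ℝ) := by exact_mod_cast p.2.pos
      have hz : (0 : ℝ) < (p : ℝ) ^ (-(j : ℤ)) := zpow_pos hp0 _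
      have h3 := sqV_one_le p _ q3
      have h4 : |((dsc i.1.1 i.1.2.1 i.1.2.2 : ℤ) : ℝ)| ≤ 5 * (H3 i.1 : ℝ) ^ 2 := by
        have := dsc_abs_le (x := i.1) (X := H3 i.1) le_rfl
        exact_mod_cast this
      have hH0 : (0 : ℝ) ≤ (H3 i.1 : ℝ) := Nat.cast_nonneg _
      have hm3 : 3 ≤ m := le_max_left _ _
      have hm3' : (3 : ℝ) ≤ m := by exact_mod_cast hm3
      have hm10 : 10 * (μ Set.univ).toReal ≤ m := by
        refine (Nat.le_ceil _).trans ?_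
        exact_mod_cast le_max_right _ _
      have hμ0 : 0 ≤ (μ Set.univ).toReal := ENNReal.toReal_nonneg
      have h5 : 10 * (μ Set.univ).toReal * (H3 i.1 : ℝ) ^ 2 ≤ ((H3 i.1 : ℝ) + m) ^ m := by
        calc 10 * (μ Set.univ).toReal * (H3 i.1 : ℝ) ^ 2
            ≤ ((H3 i.1 : ℝ) + m) * ((H3 i.1 : ℝ) + m) ^ 2 := by
              apply mul_le_mul (by linarith) _ (by positivity) (by positivity)
              exact pow_le_pow_left₀ hH0 (by linarith) 2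
          _ = ((H3 i.1 : ℝ) + m) ^ 3 := by ring
          _ ≤ ((H3 i.1 : ℝ) + m) ^ m := pow_le_pow_right₀ (by linarith) hm3
      calc (μ Set.univ).toReal * (2 * (p : ℝ) ^ (-(j : ℤ)) *
            sqV {p} (dsc i.1.1 i.1.2.1 i.1.2.2))
          ≤ (μ Set.univ).toReal * (2 * (p : ℝ) ^ (-(j : ℤ)) * (5 * (H3 i.1 : ℝ) ^ 2)) := by
            apply mul_le_mul_of_nonneg_left _ hμ0
            apply mul_le_mul_of_nonneg_left (h3.trans h4) (by positivity)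
        _ = 10 * (μ Set.univ).toReal * (H3 i.1 : ℝ) ^ 2 * (p : ℝ) ^ (-(j : ℤ)) := by ring
        _ ≤ ((H3 i.1 : ℝ) + m) ^ m * (p : ℝ) ^ (-(j : ℤ)) :=
            mul_le_mul_of_nonneg_right h5 hz.le)
    ⟨8, fun X => card_hfin (q := Q2 u v u' v') X⟩
    (fun n => ⟨C, fun k j => hC n k j⟩)
  filter_upwards [key] with w hw
  have hfinite := hw (by
    obtain ⟨n, hn⟩ := exists_nat_ge |w.1|
    exact ⟨n, hn, fun p _ => Set.mem_univ _⟩)
  have hbox : {x : ℤ × ℤ × ℤ | H3 x ≤ 1}.Finite := by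
    refine (Q273.QP.box 1).finite_toSet.subset ?_
    intro x hx
    exact mem_coe.2 (mem_box.2 hx)
  refine ((hfinite.image Subtype.val).union hbox).subset ?_
  rintro x ⟨q1, q2, q3, q4, q5, q6⟩
  by_cases hx : H3 x ≤ 1
  · exact Or.inr hx
  · left
    push Not at hx
    refine ⟨⟨x, q1, q2, q3, q4, q5⟩, ⟨hx.le, ?_⟩, rfl⟩
    refine q6.trans ?_
    refine mul_le_mul_of_nonneg_left ?_ (w2_nonneg u v u' v' x)
    have hH : (2 : ℝ) ≤ (H3 x : ℝ) := by exact_mod_cast hx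
    have h1 : (H3 x : ℝ) ^ (-ε) = ((H3 x : ℝ) ^ 2) ^ (-(ε / 2)) := by
      rw [← Real.rpow_natCast, ← Real.rpow_mul (by positivity)]
      congr 1
      push_cast
      ring
    rw [h1]
    apply Real.rpow_le_rpow_of_nonpos (by positivity) (by nlinarith) (by linarith)

end Pool.Agent.Q150.QP
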